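import Mathlib
import Pool.Agent.Work.MP_aebf03_lw.Main2

/-!
# MP_aebf03_nt: for almost all n the primes p making F(n,p) prime are far from both ends
-/

set_option autoImplicit false

namespace Pool.Agent.Results.MP_aebf03_nt.FarWitnesses

open Filter Topology

/-- The number F(n,p) = ((p + 1) φ(n - p))^2 + 1 of the problem. -/
def F (n p : ℕ) : ℕ := ((p + 1) * Nat.totient (n - p)) ^ 2 + 1

/-- The prime p is a witness for n: p < n and F(n,p) is prime. -/
def Witness (n p : ℕ) : Prop := p.Prime ∧ p < n ∧ (F n p).Prime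

/-- The distance Y(n) = log n / (log log n)^4. -/
noncomputable def Y (n : ℕ) : ℝ := Real.log n / Real.log (Real.log n) ^ 4

open Classical in
/-- The positive integers n which have a witness p with p ≤ Y(n) or with n - p ≤ Y(n) have natural
density zero. -/
theorem result :
    Tendsto (fun N : ℕ => (((Finset.Icc 1 N).filter
      (fun n => ∃ p, Witness n p ∧ ((p : ℝ) ≤ Y n ∨ (n : ℝ) - p ≤ Y n))).card : ℝ) / N)
      atTop (𝓝 0) := by
  rw [Metric.tendsto_atTop]
  intro ε hε
  obtain ⟨X, hX⟩ := Pool.LW.main2 (ε / 2) (by positivity)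
  refine ⟨max X 1, fun N hN => ?_⟩
  have h1 := hX N (le_trans (le_max_left _ _) hN)
  have h2 : 1 ≤ N := le_trans (le_max_right _ _) hN
  have hN0 : (0 : ℝ) < N := by exact_mod_cast h2
  have h3 : (((Finset.Icc 1 N).filter
      (fun n => ∃ p, Witness n p ∧ ((p : ℝ) ≤ Y n ∨ (n : ℝ) - p ≤ Y n))).card : ℝ) ≤
        ε / 2 * N := by
    refine le_trans ?_ h1
    refine Nat.cast_le.mpr (Finset.card_le_card ?_)
    intro n hn
    simp only [Finset.mem_filter, Finset.mem_Icc, Finset.mem_Ioc] at hn ⊢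
    obtain ⟨hn1, p, ⟨hp1, hp2, hp3⟩, hp4⟩ := hn
    refine ⟨⟨by omega, hn1.2⟩, p, hp1, hp2, ?_, hp3⟩
    rw [Nat.cast_sub hp2.le]
    exact hp4
  rw [Real.dist_eq, sub_zero, abs_of_nonneg (by positivity), div_lt_iff₀ hN0]
  nlinarith

end Pool.Agent.Results.MP_aebf03_nt.FarWitnesses
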