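import Mathlib
import Pool.Agent.Work.MP_aebf03_lw.D_Fin

/-!
# MP_aebf03_nt: the mean number of primes p making F(n,p) prime
-/

set_option autoImplicit false

namespace Pool.Agent.Results.MP_aebf03_nt.MeanWitnesses

/-- The number F(n,p) = ((p + 1) φ(n - p))^2 + 1 of the problem. -/
def F (n p : ℕ) : ℕ := ((p + 1) * Nat.totient (n - p)) ^ 2 + 1

open Classical in
/-- The number r(n) of the primes p < n for which F(n,p) is prime. -/
noncomputable def r (n : ℕ) : ℕ :=
  ((Finset.range n).filter (fun p => p.Prime ∧ (F n p).Prime)).card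

/-- The sum of r(n) over n ≤ N is at most C N^2 (log log N)^3 / (log N)^2 for all large N. -/
theorem result : ∃ (C : ℝ) (N₀ : ℕ), ∀ N : ℕ, N₀ ≤ N →
    ∑ n ∈ Finset.Icc 1 N, (r n : ℝ) ≤
      C * ((N : ℝ) ^ 2 * Real.log (Real.log N) ^ 3 / Real.log N ^ 2) := by
  obtain ⟨C, -, X, h⟩ := Pool.LW.mean
  refine ⟨C, X, fun N hN => ?_⟩
  have h1 := h N hN
  have h2 : ∑ n ∈ Finset.Icc 1 N, (r n : ℝ) =
      ((∑ n ∈ Finset.Icc 1 N, ((Finset.range n).filter (fun p => p.Prime ∧
        (((p + 1) * (n - p).totient) ^ 2 + 1).Prime)).card : ℕ) : ℝ) := by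
    push_cast
    apply Finset.sum_congr rfl
    intro n _
    unfold r F
    congr!
  rw [h2]
  exact h1

end Pool.Agent.Results.MP_aebf03_nt.MeanWitnesses
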